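import Pool.Agent.BOC.Off

/-!
Bochner principle for all holomorphic tensors with values in the powers of a hermitian semipositive
parabolic line bundle on a compact holomorphic symplectic manifold, also on the complement of the
divisor of a section, with arbitrary singularities along the divisor.
-/

open MeasureTheory Pool.Agent.DTW Pool.Agent.SKF Pool.Agent.BOC Pool.Agent.CIS
open scoped ContDiff

namespace Pool.Agent.Results.MP_be00df_ag.BochnerTensors

/-- Let `X` be a compact holomorphic symplectic manifold of dimension `2n`, `L` a holomorphic line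
bundle on `X` with a smooth hermitian metric of semipositive curvature `η` and with `q(L, L) = 0`.
The vectors `X_b = XX (B.wt i) z b`, defined by `σ(X_b, ·) = ∂∂̄w(·, b̄)`, lie in the kernel of `η`.
Let `s` be a holomorphic section of `L^m'` (`m'` any integer; for instance `s = 1`, `m' = 0`), `Y`
the complement of its zero set, and `α` a holomorphic section of `(T^*X)^(⊗k) ⊗ L^m` on `Y` (`m`
any integer, `k ≥ 0`, arbitrary singularities along the complement of `Y`). Then at every point of
`Y` one has `X_b (α(X_(c_1), ..., X_(c_k))) = m (X_b w) α(X_(c_1), ..., X_(c_k))`, and the length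
`N` of `α` for the metric of `L` and the semipositive form induced by `η` on `T^*X` is a smooth
function on `Y` which is constant in the directions `X_b`. -/
theorem result {n : ℕ} {X : Type*} [TopologicalSpace X] [CompactSpace X] [T2Space X]
    [MeasurableSpace X] [BorelSpace X] {ι : Type*} (A : Atlas n X ι) :
    (∃ μ : Measure X, A.IsVolume μ) ∧ (∀ B : Bundle A, ∃ q : X → ℝ, B.IsDensity q) ∧
    ∀ (μ : Measure X) (B : Bundle A) (q : X → ℝ), A.IsVolume μ → B.IsDensity q →
      B.Semipositive → ∫ x, q x ∂μ = 0 →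
        (∀ i, ∀ z ∈ (A.c i).target, ∀ a b : E n,
          S (XX (B.wt i) z b) a = levi (B.wt i) z a b ∧
          levi (B.wt i) z (XX (B.wt i) z b) a = 0) ∧
        ∀ (m' : ℤ) (s : ι → X → ℂ), B.IsSection m' s → B.IsHol s →
          ∀ (k : ℕ) (m : ℤ) (α : ι → X → Tk n k), IsTensorOff B s m k α →
            (∃ N : X → ℝ,
              (∀ i, ∀ x ∈ (A.c i).source, x ∈ Off A s →
                0 ≤ N x ∧ (N x : ℂ) = NC (m : ℝ) (B.wt i) (ta A α i) (A.c i x)) ∧
              (∀ i, ContDiffOn ℝ ∞ (N ∘ (A.c i).symm) (Ou A s i)) ∧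
              ∀ i, ∀ z ∈ Ou A s i, ∀ b : E n,
                d10 (fun y => (N ((A.c i).symm y) : ℂ)) z (XX (B.wt i) z b) = 0 ∧
                d01 (fun y => (N ((A.c i).symm y) : ℂ)) z (XX (B.wt i) z b) = 0) ∧
            ∀ i, ∀ z ∈ Ou A s i, ∀ (b : E n) (c : Fin k → E n),
              d10 (fun y => ta A α i y fun l => XX (B.wt i) y (c l)) z (XX (B.wt i) z b)
                = m * d10 (fun y => (B.wt i y : ℂ)) z (XX (B.wt i) z b)
                  * ta A α i z fun l => XX (B.wt i) z (c l) := by
  refine ⟨exists_volume A, fun B => exists_density B, ?_⟩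
  intro μ B q hμ hq hsp hint
  have hpara : Para B μ := ⟨q, hq, hint⟩
  have hiso := iso_all hμ B hsp hpara
  have L := loc_all hμ B hsp hpara
  refine ⟨?_, ?_⟩
  · intro i z hz a b
    have hw : ContDiffAt ℝ ∞ (B.wt i) z :=
      (B.smooth i).contDiffAt ((A.c i).open_target.mem_nhds hz)
    have h1 := S_XX hw 1 b a
    have h2 := levi_XX hw (hiso i z hz) 1 b a
    rw [one_smul] at h1 h2
    rw [one_mul] at h1
    exact ⟨h1, h2⟩
  · intro m' s hs hol k m α hα
    have hmai := fun i (z : E n) (hz : z ∈ Ou A s i) b cs =>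
      Off_mai hμ hsp hpara hs hol hα i hz b cs
    have hH : ∀ i, Hol (ta A α i) (Ou A s i) := fun i u => hα.hol i u
    have hN : ∀ i, ∀ x ∈ (A.c i).source, x ∈ Off A s →
        (NX B m α x : ℂ) = NC (m : ℝ) (B.wt i) (ta A α i) (A.c i x) := by
      intro i x hx hxY
      have hz : A.c i x ∈ Ou A s i :=
        ⟨(A.c i).map_source hx, by rw [(A.c i).left_inv hx]; exact hxY⟩
      have h1 := Off_vt L hα i hz
      have h2 := nc_real (Off_Loc L hs i) hz (ta A α i) (m : ℝ)
      unfold vt at h1
      rw [(A.c i).left_inv hx] at h1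
      rw [h2, h1]
    refine ⟨⟨NX B m α, ?_, ?_, ?_⟩, fun i z hz b cs => hmai i z hz b cs⟩
    · intro i x hx hxY
      refine ⟨?_, hN i x hx hxY⟩
      obtain ⟨r, c, hG⟩ := grg ((L i).psd _ ((A.c i).map_source hx))
      have h1 := hN i x hx hxY
      have h3 : (NX B m α x : ℂ) = ((Real.exp (-((m : ℝ) * B.wt i (A.c i x)))
          * ∑ R : Fin k → Fin r, Complex.normSq (ta A α i (A.c i x)
            fun s => XX (B.wt i) (A.c i x) (c (R s))) : ℝ) : ℂ) := by
        rw [h1]
        unfold NC
        rw [len_real, hh_gram _ _ hG]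
        push_cast
        rfl
      rw [Complex.ofReal_inj.1 h3]
      exact mul_nonneg (Real.exp_pos _).le (Finset.sum_nonneg fun R _ => Complex.normSq_nonneg _)
    · intro i
      exact Off_sm L hs hα i
    · intro i z hz b
      have hsm := Off_sm L hs hα i
      have hop := isOpen_Ou (A := A) hs i
      have h1 : (fun y => (NX B m α ((A.c i).symm y) : ℂ)) =ᶠ[nhds z]
          NC (m : ℝ) (B.wt i) (ta A α i) := by
        filter_upwards [hop.mem_nhds hz] with y hy
        have h2 := hN i ((A.c i).symm y) ((A.c i).map_target hy.1) hy.2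
        rw [(A.c i).right_inv hy.1] at h2
        exact h2
      have h3 : d10 (fun y => (NX B m α ((A.c i).symm y) : ℂ)) z (XX (B.wt i) z b) = 0 := by
        rw [d10_congr h1]
        exact Len_nc (Off_Loc L hs i) (hH i) hz fun cs => hmai i z hz b cs
      refine ⟨h3, ?_⟩
      have h4 : DifferentiableAt ℝ (fun y => (NX B m α ((A.c i).symm y) : ℂ)) z :=
        diffAt_of hop (contDiffOn_cx hsm) hz
      have h5 := d01_conj (a := XX (B.wt i) z b) h4
      rw [h3, map_zero] at h5
      simpa only [Complex.conj_ofReal] using h5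

end Pool.Agent.Results.MP_be00df_ag.BochnerTensors
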