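import Pool.Agent.CIS.Cpl
import Pool.Agent.CIS.Lev

/-!
The holomorphic functions on the complement of the divisor of a section of a power of a hermitian
semipositive parabolic line bundle on a compact holomorphic symplectic manifold form a complete
integrable system, and the components of the level sets of `n` independent ones are compact.
-/

open scoped ContDiff
open MeasureTheory Pool.Agent.DTW Pool.Agent.CIS

namespace Pool.Agent.Results.MP_be00df_ag.CompleteIntegrable

/-- Let `X` be a compact holomorphic symplectic manifold of dimension `2n`, `L` a holomorphic line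
bundle on `X` with a smooth hermitian metric of semipositive curvature and with `q(L, L) = 0`, and
`s` a holomorphic section of a power `L^m`. Let `Y` be the complement of the zero set of `s`. For
every holomorphic function `f` on `Y`: the Hamiltonian vector field of `f` lies in the kernel of the
curvature of `L`; the Poisson bracket of `f` with every holomorphic function on `Y` is zero; and
through every point `x` of `Y` there is an integral curve of the Hamiltonian vector field of `f`
that is defined for all times and is contained in a compact subset of `Y`; the length of `s` and all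
holomorphic functions on `Y` are constant on this curve. If `f 1, ..., f n` are holomorphic
functions on `Y` and `Z` is a connected component of a common level set of them at all of whose
points their Hamiltonian vector fields (that is, their differentials) are linearly independent, then
`Z` is compact. -/
theorem result {n : ℕ} {X : Type*} [TopologicalSpace X] [CompactSpace X] [T2Space X]
    [MeasurableSpace X] [BorelSpace X] {ι : Type*} (A : Atlas n X ι) :
    (∃ μ : Measure X, A.IsVolume μ) ∧ (∀ B : Bundle A, ∃ q : X → ℝ, B.IsDensity q) ∧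
    ∀ (μ : Measure X) (B : Bundle A) (q : X → ℝ), A.IsVolume μ → B.IsDensity q →
      B.Semipositive → ∫ x, q x ∂μ = 0 →
      ∀ (m : ℤ) (s : ι → X → ℂ), B.IsSection m s → B.IsHol s →
      (∀ f : X → ℂ, HolOff A s f →
        (∀ i, ∀ z ∈ Ou A s i, ∀ b : E n, levi (B.wt i) z (hamX A f i z) b = 0) ∧
        (∀ g : X → ℂ, HolOff A s g → ∀ i, ∀ z ∈ Ou A s i,
          poisson (f ∘ (A.c i).symm) (g ∘ (A.c i).symm) z = 0) ∧
        ∀ x ∈ Off A s, ∃ (γ : ℝ → X) (K : Set X), γ 0 = x ∧ IsCompact K ∧ K ⊆ Off A s ∧
          ∀ τ : ℝ, IC A (hamX A f) γ τ ∧ γ τ ∈ K ∧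
            (∀ i j, γ τ ∈ (A.c i).source → x ∈ (A.c j).source →
              ‖s i (γ τ)‖ ^ 2 * Real.exp (-(m * B.w i (γ τ)))
                = ‖s j x‖ ^ 2 * Real.exp (-(m * B.w j x))) ∧
            ∀ g : X → ℂ, HolOff A s g → g (γ τ) = g x) ∧
      ∀ f : Fin n → X → ℂ, (∀ k, HolOff A s (f k)) → ∀ x ∈ Off A s,
        (∀ y ∈ connectedComponentIn {y | y ∈ Off A s ∧ ∀ k, f k y = f k x} x,
          ∃ i, y ∈ (A.c i).source ∧ LinearIndependent ℂ fun k => hamX A (f k) i (A.c i y)) →
        IsCompact (connectedComponentIn {y | y ∈ Off A s ∧ ∀ k, f k y = f k x} x) := by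
  refine ⟨exists_volume A, fun B => exists_density B, ?_⟩
  intro μ B q hμ hq hsp hint m s hs hol
  have hpara : Para B μ := ⟨q, hq, hint⟩
  refine ⟨?_, fun f hf x hx hind => (level_compact hμ hsp hpara hs hol hf hx hind).1⟩
  intro f hf
  refine ⟨?_, ?_, ?_⟩
  · intro i z hz b
    have hw : ContDiffAt ℝ ∞ (B.wt i) z :=
      (B.smooth i).contDiffAt ((A.c i).open_target.mem_nhds hz.1)
    have h := fun j => ham_ker (ker_of_hol hμ hsp hpara hs hol hf hz j)
    rw [levi_eq_sum hw, Finset.sum_comm]
    refine Finset.sum_eq_zero fun j _ => ?_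
    have h1 : ∑ k : Ix n, hamX A f i z k * (starRingEnd ℂ) (b j) * LM (B.wt i) z k j
        = (starRingEnd ℂ) (b j)
          * ∑ k : Ix n, (sg k * pk k.swap (f ∘ (A.c i).symm) z) * LM (B.wt i) z k j := by
      rw [Finset.mul_sum]
      refine Finset.sum_congr rfl fun k _ => ?_
      unfold hamX ham pk
      ring
    rw [h1, h j, mul_zero]
  · intro g hg i z hz
    exact poisson_zero hμ hsp hpara hs hol hf hg hz
  · intro x hx
    obtain ⟨γ, h0, h⟩ := complete hμ hsp hpara hs hol hf hx
    refine ⟨γ, {y | len B m s y = len B m s x}, h0,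
      (isClosed_eq (continuous_len hs) continuous_const).isCompact, ?_, ?_⟩
    · intro y hy
      have hy' : len B m s y = len B m s x := hy
      rw [← len_pos hs, hy']
      exact (len_pos hs).2 hx
    · intro τ
      obtain ⟨h1, h2, h3, h4⟩ := h τ
      refine ⟨h1, h3, ?_, h4⟩
      intro i j hi hj
      rw [← len_chart hs hi, ← len_chart hs hj]
      exact h3

end Pool.Agent.Results.MP_be00df_ag.CompleteIntegrable
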