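import Pool.Agent.LFC.Fin

/-!
The null foliation of a hermitian semipositive parabolic line bundle on a compact holomorphic
symplectic manifold: it is holomorphic, and all its leaves are complete quotients of `ℂ^r`.
-/

open MeasureTheory Pool.Agent.DTW Pool.Agent.SKF Pool.Agent.LFC

namespace Pool.Agent.Results.MP_be00df_ag.CompleteLeaves

/-- Let `X` be a compact holomorphic symplectic manifold of dimension `2n`, `L` a holomorphic line
bundle on `X` with a smooth hermitian metric of semipositive curvature `η` and with `q(L, L) = 0`.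
(1) Through every point `x` of `X` there is a leaf map: a holomorphic map `Φ : ℂ^r → X` with
`Φ 0 = x`, `r` the rank of `η` at `x` and at all points `Φ t`, whose derivative is at every
`t ∈ ℂ^r` an isometric isomorphism onto the `σ`-orthogonal of the kernel of `η` (which is the kernel
itself if `r = n`), with the metric inverse to `η`. (2) Two leaf maps whose images meet differ by a
unitary affine map; so the images, the leaves, are a partition of `X`. (3) Leaf maps are locally
injective: the leaves are quotients of `ℂ^r` by discrete groups of unitary affine maps.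
(4) A curve tangent to the leaves that starts in a leaf stays in it, and every point of a leaf is
reached by such a curve. (5) The length of holomorphic sections of all powers of `L` is constant on
the leaves. (6) At every point the cubic form of `η` vanishes, and where the kernel of `η` has
dimension `n` it is spanned by holomorphic vector fields, isotropic for `σ` and with brackets in
the kernel: the leaves are there the leaves of a holomorphic Lagrangian foliation. -/
theorem result {n : ℕ} {X : Type*} [TopologicalSpace X] [CompactSpace X] [T2Space X]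
    [MeasurableSpace X] [BorelSpace X] {ι : Type*} (A : Atlas n X ι) :
    (∃ μ : Measure X, A.IsVolume μ) ∧ (∀ B : Bundle A, ∃ q : X → ℝ, B.IsDensity q) ∧
    ∀ (μ : Measure X) (B : Bundle A) (q : X → ℝ), A.IsVolume μ → B.IsDensity q →
      B.Semipositive → ∫ x, q x ∂μ = 0 →
        (∀ x : X, ∃ r ≤ n, ∃ Φ : (Fin r → ℂ) → X, IsLeafMap B Φ ∧ Φ 0 = x) ∧
        (∀ (r r' : ℕ) (Φ : (Fin r → ℂ) → X) (Ψ : (Fin r' → ℂ) → X), IsLeafMap B Φ →
          IsLeafMap B Ψ → ∀ s t, Φ s = Ψ t → ∃ V : (Fin r → ℂ) ≃ₗ[ℂ] (Fin r' → ℂ),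
            (∀ ξ, ∑ k, Complex.normSq (V ξ k) = ∑ k, Complex.normSq (ξ k)) ∧
            ∀ ξ, Φ (s + ξ) = Ψ (t + V ξ)) ∧
        (∀ (r : ℕ) (Φ : (Fin r → ℂ) → X), IsLeafMap B Φ →
          (∀ t, ∃ δ > 0, Set.InjOn Φ (Metric.ball t δ)) ∧
          (∀ (a b : ℝ) (γ : ℝ → X), (∀ s ∈ Set.Icc a b, IsNullCurve B γ s) → (∃ t, γ a = Φ t) →
            ∀ s ∈ Set.Icc a b, ∃ t, γ s = Φ t) ∧
          (∀ (ξ : Fin r → ℂ) (s₀ : ℝ), IsNullCurve B (fun s : ℝ => Φ (s • ξ)) s₀) ∧
          ∀ (m : ℤ) (s : ι → X → ℂ), B.IsSection m s → B.IsHol s →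
            ∀ t t', len B m s (Φ t) = len B m s (Φ t')) ∧
        ∀ i, ∀ z ∈ (A.c i).target,
          (∀ a b : E n, (∀ a', S a a' = levi (B.wt i) z a' b) →
            ∀ c d, d01 (fun y => levi (B.wt i) y a c) z d = 0) ∧
          (Module.finrank ℂ (kerL (B.wt i) z) = n →
            ∃ V : Set (E n), IsOpen V ∧ z ∈ V ∧ V ⊆ (A.c i).target ∧ ∃ a : Fin n → E n → E n,
              (∀ k, DifferentiableOn ℂ (a k) V) ∧ ∀ y ∈ V,
                LinearIndependent ℂ (fun k => a k y) ∧
                Submodule.span ℂ (Set.range fun k => a k y) = kerL (B.wt i) y ∧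
                (∀ k l, S (a k y) (a l y) = 0) ∧
                ∀ k l, fderiv ℂ (a k) y (a l y) - fderiv ℂ (a l) y (a k y)
                  ∈ kerL (B.wt i) y) := by
  refine ⟨exists_volume A, fun B => exists_density B, ?_⟩
  intro μ B q hμ hq hsp hint
  have hpara : Para B μ := ⟨q, hq, hint⟩
  have L := locB_all hμ B hsp hpara
  have L' : ∀ i, Loc (B.wt i) (A.c i).target := fun i => (L i).loc
  refine ⟨fun x => ?_, fun r r' Φ Ψ hΦ hΨ s t h => ?_, fun r Φ hΦ => ?_, fun i z hz => ?_⟩
  · obtain ⟨r, Φ, h0, hΦ⟩ := exists_leaf B L x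
    have hx : Φ 0 ∈ (A.c (ix A (Φ 0))).source := mem_ix A (Φ 0)
    obtain ⟨T, -, hF⟩ := (hΦ 0).2 _ hx
    exact ⟨r, (frame_rank (L' _) ((A.c _).map_source hx) hF).2, Φ,
      (isLeafMap_iff B L' Φ).2 hΦ, h0⟩
  · exact dck B L' ((isLeafMap_iff B L' Φ).1 hΦ) ((isLeafMap_iff B L' Ψ).1 hΨ) h
  · have hΦ' := (isLeafMap_iff B L' Φ).1 hΦ
    refine ⟨inj B L' hΦ', ?_, ?_, ?_⟩
    · rintro a b γ hγ ⟨t, ht⟩
      exact crv B L (fun s hs => (isNullCurve_iff B L' γ s).1 (hγ s hs)) hΦ' ht
    · exact fun ξ s₀ => (isNullCurve_iff B L' _ s₀).2 (cvr B L hΦ' ξ s₀)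
    · exact fun m s hs hol t t' => sec hμ B hsp hpara hs hol hΦ' t t'
  · exact ⟨fun a b hab c d => cubic hμ B hsp hpara i z hz a b hab c d,
      fun hr => foliation hμ B hsp hpara i z hz hr⟩

end Pool.Agent.Results.MP_be00df_ag.CompleteLeaves
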