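import Pool.Agent.TWR.Unf
import Pool.Agent.TWR.Kth
import Pool.Agent.TWR.Hlt

/-!
Degenerate twistor deformation of a compact holomorphic symplectic manifold with a hermitian
semipositive parabolic line bundle: the holomorphic sections and semiampleness do not change, and
the complement of the divisor of a section does not change up to biholomorphic maps.
-/

open scoped ContDiff
open MeasureTheory Pool.Agent.DTW Pool.Agent.CIS Pool.Agent.TWR

namespace Pool.Agent.Results.MP_be00df_ag.TwistorComplement

/-- Let `X` be a compact holomorphic symplectic manifold of dimension `2n`, `L` a holomorphic line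
bundle on `X` with a smooth hermitian metric of semipositive curvature and with `q(L, L) = 0`, and
`t` a complex number. Then the kernel of `σ + t ∂∂̄ w` is the (0,1)-part of an almost complex
structure `I_t`; a smooth section of `L^m` (`m` any integer) is holomorphic for `I_t` if and only if
it is holomorphic; `L` is semiample for `I_t` if and only if it is semiample. Moreover let `s` be a
holomorphic section of `L^m`, `m ≠ 0`, and let `Y` be the complement of its zero set. There is a
bijective map `F` of `Y` to itself that preserves the length of `s`, and which is, like its inverse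
`G`, continuous and of class `C¹` in the charts, such that `F` pulls back `σ` to `σ + t ∂∂̄ w` and
the curvature `∂∂̄ w` to itself; a complex tangent vector is of type (0,1) for `I_t` if and only if its image under `F` is of type (0,1) for the given
complex structure, that is, `F : (Y, I_t) → (Y, I)` is biholomorphic. -/
theorem result {n : ℕ} {X : Type*} [TopologicalSpace X] [CompactSpace X] [T2Space X]
    [MeasurableSpace X] [BorelSpace X] {ι : Type*} (A : Atlas n X ι) :
    (∃ μ : Measure X, A.IsVolume μ) ∧ (∀ B : Bundle A, ∃ q : X → ℝ, B.IsDensity q) ∧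
    ∀ (μ : Measure X) (B : Bundle A) (q : X → ℝ), A.IsVolume μ → B.IsDensity q →
      B.Semipositive → ∫ x, q x ∂μ = 0 → ∀ t : ℂ,
        (∀ i, ∀ z ∈ (A.c i).target, ∀ u v : E n, ∃! r : (E n × E n) × (E n × E n),
          IsZeroOne t (B.wt i) z r.1.1 r.1.2 ∧ IsZeroOne t (B.wt i) z r.2.1 r.2.2 ∧
            r.1.1 + r.2.2 = u ∧ r.1.2 + r.2.1 = v) ∧
        (∀ (m : ℤ) (s : ι → X → ℂ), B.IsSection m s → (B.IsHolT t m s ↔ B.IsHol s)) ∧
        (B.SemiampleT t ↔ B.Semiample) ∧
        ∀ (m : ℤ) (s : ι → X → ℂ), m ≠ 0 → B.IsSection m s → B.IsHol s →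
          ∃ F G : X → X, (∀ x ∈ Off A s, F x ∈ Off A s ∧ G x ∈ Off A s ∧ G (F x) = x ∧
              F (G x) = x ∧ ContinuousAt F x ∧ ContinuousAt G x ∧
              len B m s (F x) = len B m s x) ∧
            ∀ i j, ∀ z ∈ Ou A s i,
              (G ((A.c i).symm z) ∈ (A.c j).source →
                ContDiffAt ℝ 1 (fun y => A.c j (G ((A.c i).symm y))) z) ∧
              (F ((A.c i).symm z) ∈ (A.c j).source →
                ContDiffAt ℝ 1 (fun y => A.c j (F ((A.c i).symm y))) z ∧
                (∀ a b : E n, S (fderiv ℝ (fun y => A.c j (F ((A.c i).symm y))) z a)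
                    (fderiv ℝ (fun y => A.c j (F ((A.c i).symm y))) z b)
                  = S a b + t * (levi (B.wt i) z a b - levi (B.wt i) z b a)) ∧
                (∀ a b : E n, th (B.wt j) (A.c j (F ((A.c i).symm z)))
                    (fderiv ℝ (fun y => A.c j (F ((A.c i).symm y))) z a)
                    (fderiv ℝ (fun y => A.c j (F ((A.c i).symm y))) z b)
                  = th (B.wt i) z a b) ∧
                ∀ a b : E n, IsZeroOne t (B.wt i) z a b ↔
                  ∀ k, d10 (fun y => A.c j (F ((A.c i).symm y)) k) z a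
                    + d01 (fun y => A.c j (F ((A.c i).symm y)) k) z b = 0) := by
  refine ⟨exists_volume A, fun B => exists_density B, ?_⟩
  intro μ B q hμ hq hsp hint t
  have hpara : Para B μ := ⟨q, hq, hint⟩
  have hiso := iso_all hμ B hsp hpara
  have hmain : ∀ (m : ℤ) (s : ι → X → ℂ), B.IsSection m s → (B.IsHolT t m s ↔ B.IsHol s) :=
    fun m s hs => main_iff hμ B hsp hpara t m hs
  refine ⟨?_, hmain, ?_, ?_⟩
  · intro i z hz u v
    exact complementary ((B.smooth i).contDiffAt ((A.c i).open_target.mem_nhds hz))
      (fun k l => LM_conj (A.c i).open_target (B.smooth i) hz k l) (hiso i z hz) t u v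
  · constructor
    · rintro ⟨m, hm, h⟩
      refine ⟨m, hm, fun i x hx => ?_⟩
      obtain ⟨s, h1, h2, h3⟩ := h i x hx
      exact ⟨s, h1, (hmain m s h1).1 h2, h3⟩
    · rintro ⟨m, hm, h⟩
      refine ⟨m, hm, fun i x hx => ?_⟩
      obtain ⟨s, h1, h2, h3⟩ := h i x hx
      exact ⟨s, h1, (hmain m s h1).2 h2, h3⟩
  · intro m s hm hs hol
    have hm' : (m : ℂ) ≠ 0 := by exact_mod_cast hm
    set l : ℂ := t / m with hl
    have hlm : l * m = t := by rw [hl]; field_simp
    have hker : ∀ i, ∀ z ∈ Ou A s i, ∀ b : E n, th (B.wt i) z (WW B m s l i z) b = 0 :=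
      fun i z hz b => WW_ker hμ hsp hpara hs hol l hz b
    have hg1 : ∀ x ∈ Off A s, Good B t (Fl B m s l 1) x := by
      intro x hx
      have h := flow_good hs hol l hker hx 1
      rw [Complex.ofReal_one, one_mul, hlm] at h
      exact h
    have hg2 : ∀ x ∈ Off A s, Good B (-t) (Fl B m s l (-1)) x := by
      intro x hx
      have h := flow_good hs hol l hker hx (-1)
      rw [Complex.ofReal_neg, Complex.ofReal_one, neg_one_mul, neg_mul, hlm] at h
      exact h
    refine ⟨Fl B m s l 1, Fl B m s l (-1), ?_, ?_⟩
    · intro x hx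
      have h1 := (Fl_curve hs hol l hx 1).2
      have h2 := (Fl_curve hs hol l hx (-1)).2
      refine ⟨h1, h2, ?_, ?_, (hg1 x hx).1, (hg2 x hx).1, Fl_len hs hol l hx 1⟩
      · rw [← Fl_add hs hol l hx, neg_add_cancel, Fl_zero hs hol l hx]
      · rw [← Fl_add hs hol l hx, add_neg_cancel, Fl_zero hs hol l hx]
    · intro i j z hz
      have hsi := (A.c i).map_target hz.1
      have hz' : A.c i ((A.c i).symm z) = z := (A.c i).right_inv hz.1
      refine ⟨fun hj => ?_, fun hj => ?_⟩
      · have h := ((hg2 _ hz.2).2 i j hsi hj).1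
        rw [hz'] at h
        exact h
      · obtain ⟨h1, h2, h3⟩ := (hg1 _ hz.2).2 i j hsi hj
        rw [hz'] at h1 h2 h3
        refine ⟨h1, h2, h3, fun a b => ?_⟩
        rw [zo_of_pull (w := B.wt i) (A.c i).open_target (B.smooth i) hz.1 t _ h2 a b]
        refine forall_congr' fun k => ?_
        have hd : DifferentiableAt ℝ (fun y => A.c j (Fl B m s l 1 ((A.c i).symm y))) z :=
          h1.differentiableAt (by simp)
        have hk : ∀ v : E n, fderiv ℝ (fun y => A.c j (Fl B m s l 1 ((A.c i).symm y)) k) z v
            = fderiv ℝ (fun y => A.c j (Fl B m s l 1 ((A.c i).symm y))) z v k := by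
          intro v
          have h3 := (hasFDerivAt_pi'.1 hd.hasFDerivAt) k
          rw [h3.fderiv]
          rfl
        unfold d10 d01
        rw [hk, hk, hk, hk]

end Pool.Agent.Results.MP_be00df_ag.TwistorComplement
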